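import Pool.Agent.MP_6a4325_al.H62.Spec

/-!
Row NOETH: every subgroup of a finitely generated group with the hereditary property is
finitely generated.
-/

set_option autoImplicit false

namespace Pool.Agent.MP_6a4325_al.H7

open Pool.Agent.MP_6a4325_al.H62 Matrix

/-! ### subgroups of finitely generated abelian-by-finite groups -/

theorem fg_of_comm {A : Type} [CommGroup A] [Group.FG A] (B : Subgroup A) : B.FG := by
  have h1 : Module.Finite ℤ (Additive A) := Module.Finite.iff_addGroup_fg.2 inferInstance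
  have h2 : (AddSubgroup.toIntSubmodule (Subgroup.toAddSubgroup B)).FG :=
    IsNoetherian.noetherian _
  rw [Submodule.fg_iff_addSubgroup_fg, AddSubgroup.toIntSubmodule_toAddSubgroup] at h2
  exact (Subgroup.fg_iff_add_fg B).2 h2

theorem fg_map {G H : Type} [Group G] [Group H] {P : Subgroup G} (h : P.FG) (f : G →* H) :
    (P.map f).FG := by
  obtain ⟨S, hS, hfin⟩ := (Subgroup.fg_iff P).1 h
  refine (Subgroup.fg_iff _).2 ⟨f '' S, ?_, hfin.image f⟩
  rw [← hS, MonoidHom.map_closure]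

theorem fg_of_finiteIndex {B : Type} [Group B] (K : Subgroup B) [K.FiniteIndex] (h : K.FG) :
    Group.FG B := by
  rw [Group.fg_def]
  have h2 : (Subgroup.closure (Set.range (fun q : B ⧸ K => q.out))).FG :=
    (Subgroup.fg_iff _).2 ⟨_, rfl, Set.finite_range _⟩
  have h3 : K ⊔ Subgroup.closure (Set.range (fun q : B ⧸ K => q.out)) = ⊤ := by
    rw [eq_top_iff]
    intro b _
    obtain ⟨k, hk⟩ := QuotientGroup.mk_out_eq_mul K b
    have : b = (QuotientGroup.mk b : B ⧸ K).out * (k : B)⁻¹ := by rw [hk]; group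
    rw [this]
    exact Subgroup.mul_mem _
      (Subgroup.mem_sup_right (Subgroup.subset_closure ⟨_, rfl⟩))
      (Subgroup.mem_sup_left (K.inv_mem k.2))
  rw [← h3]
  exact h.sup h2

theorem fg_of_va {Γ : Type} [Group Γ] (hfg : Group.FG Γ) (h : VA Γ) (B : Subgroup Γ) : B.FG := by
  obtain ⟨A, _, hA, hc⟩ := h
  let : CommGroup A := { (inferInstance : Group A) with
    mul_comm := fun a b => Subtype.ext (hc a a.2 b b.2) }
  have h1 : (B.subgroupOf A).FG := fg_of_comm _
  have h2 : (B ⊓ A).FG := by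
    have := fg_map h1 A.subtype
    rwa [Subgroup.subgroupOf_map_subtype] at this
  have h3 : (A.subgroupOf B).FG := by
    have e : (B ⊓ A : Subgroup Γ) ≃* ((B ⊓ A).subgroupOf B) :=
      (Subgroup.subgroupOfEquivOfLe inf_le_left).symm
    have h4 : Group.FG (B ⊓ A : Subgroup Γ) := (Group.fg_iff_subgroup_fg _).2 h2
    have h5 : Group.FG ((B ⊓ A).subgroupOf B) :=
      Group.fg_of_surjective (f := e.toMonoidHom) e.surjective
    have h6 : (B ⊓ A).subgroupOf B = A.subgroupOf B := by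
      ext x; simp [Subgroup.mem_subgroupOf]
    rw [← h6]
    exact (Group.fg_iff_subgroup_fg _).1 h5
  exact (Group.fg_iff_subgroup_fg _).1 (fg_of_finiteIndex (A.subgroupOf B) h3)

theorem exists_fin_mod {G : Type} [Group G] (hfg : Group.FG G) (N : Subgroup G) [N.Normal]
    (h : VA (G ⧸ N)) (B : Subgroup G) :
    ∃ S : Set G, S.Finite ∧ S ⊆ B ∧ ∀ b ∈ B, ∃ c ∈ Subgroup.closure S, c⁻¹ * b ∈ N := by
  have h1 := fg_of_va inferInstance h (B.map (QuotientGroup.mk' N))
  obtain ⟨S', hS', hfin⟩ := (Subgroup.fg_iff _).1 h1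
  have h2 : ∀ s : S', ∃ b ∈ B, QuotientGroup.mk' N b = s := fun s => by
    have : (s : G ⧸ N) ∈ B.map (QuotientGroup.mk' N) := hS' ▸ Subgroup.subset_closure s.2
    exact this
  choose r hr hr' using h2
  have := hfin.to_subtype
  refine ⟨Set.range r, Set.finite_range r, ?_, ?_⟩
  · rintro _ ⟨s, rfl⟩
    exact hr s
  · intro b hb
    have h3 : (QuotientGroup.mk' N) '' Set.range r = S' := by
      ext q
      constructor
      · rintro ⟨_, ⟨s, rfl⟩, rfl⟩
        rw [hr']; exact s.2
      · intro hq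
        exact ⟨r ⟨q, hq⟩, ⟨_, rfl⟩, hr' _⟩
    have h4 : QuotientGroup.mk' N b ∈ (Subgroup.closure (Set.range r)).map (QuotientGroup.mk' N) := by
      rw [MonoidHom.map_closure, h3, hS']
      exact ⟨b, hb, rfl⟩
    obtain ⟨c, hc, hcb⟩ := h4
    exact ⟨c, hc, QuotientGroup.eq.1 hcb⟩

/-! ### the hereditary property -/

theorem hw_sub {G : Type} [Group G] (h : HW G) (H : Subgroup G) : HW H := by
  intro K Q _ f hf
  let e := K.equivMapOfInjective H.subtype H.subtype_injective
  exact h (K.map H.subtype) Q (f.comp e.symm.toMonoidHom) (hf.comp e.symm.surjective)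

theorem hw_w1 {G : Type} [Group G] (h : HW G) : W1 G :=
  (h ⊤ G (⊤ : Subgroup G).subtype fun g => ⟨⟨g, Subgroup.mem_top g⟩, rfl⟩).2.1

/-! ### functionals on the group algebra -/

/-- the functional with the values `φ g` -/
noncomputable def ev {G : Type} (φ : G → ℚ) : MonoidAlgebra ℚ G →ₗ[ℚ] ℚ :=
  Finsupp.linearCombination ℚ φ ∘ₗ (MonoidAlgebra.coeffLinearEquiv ℚ).toLinearMap

theorem ev_single {G : Type} (φ : G → ℚ) (g : G) (c : ℚ) :
    ev φ (MonoidAlgebra.single g c) = c * φ g := by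
  change Finsupp.linearCombination ℚ φ (Finsupp.single g c) = _
  simp

theorem ev_congr {G : Type} {φ ψ : G → ℚ} {x : MonoidAlgebra ℚ G}
    (h : ∀ g ∈ x.coeff.support, φ g = ψ g) : ev φ x = ev ψ x := by
  change Finsupp.linearCombination ℚ φ x.coeff = Finsupp.linearCombination ℚ ψ x.coeff
  rw [Finsupp.linearCombination_apply, Finsupp.linearCombination_apply]
  exact Finsupp.sum_congr fun g hg => by rw [h g hg]

theorem ev_mul_left {G : Type} (φ : G → ℚ) (a : ℚ) (x : MonoidAlgebra ℚ G) :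
    ev (fun g => a * φ g) x = a * ev φ x := by
  induction x using MonoidAlgebra.induction_linear with
  | zero => simp
  | add x y hx hy => rw [map_add, map_add, hx, hy]; ring
  | single g c => rw [ev_single, ev_single]; ring

theorem ev_single_mul {G : Type} [Group G] (φ : G → ℚ) (a : G) (c : ℚ)
    (x : MonoidAlgebra ℚ G) :
    ev φ (MonoidAlgebra.single a c * x) = c * ev (fun h => φ (a * h)) x := by
  induction x using MonoidAlgebra.induction_linear with
  | zero => simp
  | add x y hx hy => rw [mul_add, map_add, map_add, hx, hy]; ring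
  | single g d => rw [MonoidAlgebra.single_mul_single, ev_single, ev_single]; ring

/-- all left translates of `φ` vanish on `x` -/
def Kills {G : Type} [Group G] (φ : G → ℚ) (x : MonoidAlgebra ℚ G) : Prop :=
  ∀ g : G, ev (fun h => φ (g * h)) x = 0

theorem span_ne_top {G : Type} [Group G] (φ : G → ℚ) (h1 : φ 1 ≠ 0)
    (T : Set (MonoidAlgebra ℚ G)) (h : ∀ x ∈ T, Kills φ x) : Ideal.span T ≠ ⊤ := by
  let I : Ideal (MonoidAlgebra ℚ G) :=
    { carrier := {x | Kills φ x}
      add_mem' := fun {x y} hx hy g => by rw [map_add, hx g, hy g, add_zero]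
      zero_mem' := fun g => map_zero _
      smul_mem' := fun a x hx => by
        change Kills φ (a * x)
        induction a using MonoidAlgebra.induction_linear with
        | zero => intro g; simp
        | add a b ha hb => intro g; rw [add_mul, map_add, ha g, hb g, add_zero]
        | single a c =>
          intro g
          rw [ev_single_mul]
          have := hx (g * a)
          simp only [mul_assoc] at this
          rw [this, mul_zero] }
  have hle : Ideal.span T ≤ I := Ideal.span_le.2 h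
  intro ht
  have h2 : Kills φ 1 := hle (ht ▸ Submodule.mem_top)
  have h3 := h2 1
  rw [MonoidAlgebra.one_def, ev_single] at h3
  apply h1
  simpa using h3

theorem exists_fun {G : Type} [Group G] (T : Set (MonoidAlgebra ℚ G)) (h : Ideal.span T ≠ ⊤) :
    ∃ φ : G → ℚ, φ 1 ≠ 0 ∧ ∀ x ∈ T, Kills φ x := by
  have h1 : (1 : MonoidAlgebra ℚ G) ∉ (Ideal.span T).restrictScalars ℚ := by
    intro h1
    exact h ((Ideal.eq_top_iff_one _).2 h1)
  obtain ⟨l, hl, hle⟩ := Submodule.exists_le_ker_of_notMem h1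
  refine ⟨fun g => l (MonoidAlgebra.single g 1), hl, fun x hx g => ?_⟩
  have h2 : ∀ y : MonoidAlgebra ℚ G,
      ev (fun h => l (MonoidAlgebra.single (g * h) 1)) y = l (MonoidAlgebra.single g 1 * y) := by
    intro y
    induction y using MonoidAlgebra.induction_linear with
    | zero => simp
    | add x y hx hy => rw [mul_add, map_add, map_add, hx, hy]
    | single a d =>
      rw [MonoidAlgebra.single_mul_single, ev_single, ← smul_eq_mul, ← map_smul,
        MonoidAlgebra.smul_single]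
      simp
  rw [h2]
  exact hle (Ideal.mul_mem_left _ _ (Ideal.subset_span hx))

theorem sol_eq_zero {G : Type} [Group G] {n : ℕ} (ρ : G →* Matrix (Fin n) (Fin n) Qb)
    (v : Fin n → Qb) (T : Set (MonoidAlgebra ℚ G)) (hT : Ideal.span T = ⊤)
    (h : ∀ x ∈ T, act ℚ ρ x *ᵥ v = 0) : v = 0 := by
  let I : Ideal (MonoidAlgebra ℚ G) :=
    { carrier := {x | act ℚ ρ x *ᵥ v = 0}
      add_mem' := fun {x y} hx hy => by
        change act ℚ ρ (x + y) *ᵥ v = 0
        rw [map_add, Matrix.add_mulVec, hx, hy, add_zero]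
      zero_mem' := by
        change act ℚ ρ 0 *ᵥ v = 0
        rw [map_zero, Matrix.zero_mulVec]
      smul_mem' := fun a x hx => by
        change act ℚ ρ (a * x) *ᵥ v = 0
        rw [map_mul, ← Matrix.mulVec_mulVec, hx, Matrix.mulVec_zero] }
  have hle : Ideal.span T ≤ I := Ideal.span_le.2 h
  have h2 : act ℚ ρ 1 *ᵥ v = 0 := hle (hT ▸ Submodule.mem_top)
  rwa [map_one, Matrix.one_mulVec] at h2

/-! ### the step -/

/-- finite consistent systems with supports in `B` -/
def Good {G : Type} [Group G] (B : Subgroup G) (T : Set (MonoidAlgebra ℚ G)) : Prop :=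
  T.Finite ∧ (∀ x ∈ T, ∀ g ∈ x.coeff.support, g ∈ B) ∧ Ideal.span T ≠ ⊤

theorem new_fun {G : Type} [Group G] (N C C' : Subgroup G) [N.Normal] (hCC : C ≤ C')
    (hC' : ∀ g ∈ C', ∃ c ∈ C, c⁻¹ * g ∈ N) (D : Subgroup C') (hD : C.subgroupOf C' ≤ D)
    (hD1 : D ≠ ⊤) [D.FiniteIndex] (φ : G → ℚ) (h1 : φ 1 ≠ 0)
    (hφ : ∀ g, ∀ m ∈ N, m ∈ C → φ (g * m) = φ g) :
    ∃ (φ' : G → ℚ) (d : ℕ) (r : Fin d → G), φ' 1 ≠ 0 ∧ d ≠ 0 ∧ (∀ i, r i ∈ N ∧ r i ∈ C') ∧
      Kills φ' (∑ i, MonoidAlgebra.single (r i) 1) ∧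
      ∀ x : MonoidAlgebra ℚ G, (∀ g ∈ x.coeff.support, g ∈ C) → Kills φ x → Kills φ' x := by
  classical
  -- the extension of `φ`
  let ψ : G → ℚ := fun g => if h : ∃ c ∈ C, c⁻¹ * g ∈ N then φ h.choose else 0
  have hψ : ∀ g, ∀ c ∈ C, c⁻¹ * g ∈ N → ψ g = φ c := by
    intro g c hc hcg
    have h : ∃ c ∈ C, c⁻¹ * g ∈ N := ⟨c, hc, hcg⟩
    have h2 := h.choose_spec
    have h3 : c⁻¹ * h.choose ∈ N := by
      have := N.mul_mem hcg (N.inv_mem h2.2)
      have e : c⁻¹ * g * (h.choose⁻¹ * g)⁻¹ = c⁻¹ * h.choose := by group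
      rwa [e] at this
    have h4 := hφ c _ h3 (C.mul_mem (C.inv_mem hc) h2.1)
    have e : c * (c⁻¹ * h.choose) = h.choose := by group
    rw [e] at h4
    simp only [ψ, dif_pos h, h4]
  have : Fintype (C' ⧸ D) := Fintype.ofFinite _
  let d := Fintype.card (C' ⧸ D)
  have hd : 2 ≤ d := by
    have h2 : 1 < D.index := Subgroup.one_lt_index_of_ne_top hD1
    have h3 : D.index = d := by rw [Subgroup.index_eq_card, Nat.card_eq_fintype_card]
    omega
  -- representatives
  have hrep : ∀ q : C' ⧸ D, ∃ r : C', (r : G) ∈ N ∧ (QuotientGroup.mk r : C' ⧸ D) = q := by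
    intro q
    obtain ⟨g, rfl⟩ := QuotientGroup.mk_surjective q
    obtain ⟨c, hc, hcg⟩ := hC' g g.2
    refine ⟨g * ⟨c, hCC hc⟩⁻¹, ?_, ?_⟩
    · have := (inferInstance : N.Normal).conj_mem _ hcg c
      have e : c * (c⁻¹ * g) * c⁻¹ = g * c⁻¹ := by group
      rw [e] at this
      simpa using this
    · rw [QuotientGroup.eq]
      apply hD
      simpa [Subgroup.mem_subgroupOf] using hc
  choose rep hrepN hrepq using hrep
  let p : G → ℚ := fun g =>
    if h : g ∈ C' then (if (⟨g, h⟩ : C') ∈ D then (d : ℚ) else 0) - 1 else 0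
  let e := (Fintype.equivFin (C' ⧸ D)).symm
  refine ⟨fun g => p g * ψ g, d, fun i => rep (e i), ?_, by omega, fun i => ⟨hrepN _, (rep _).2⟩,
    ?_, ?_⟩
  · have h2 : ψ 1 = φ 1 := hψ 1 1 C.one_mem (by simp)
    have h3 : p 1 = (d : ℚ) - 1 := by
      have : (⟨1, C'.one_mem⟩ : C') ∈ D := D.one_mem
      simp only [p, dif_pos C'.one_mem, if_pos this]
    have h4 : (2 : ℚ) ≤ d := by exact_mod_cast hd
    change p 1 * ψ 1 ≠ 0
    rw [h2, h3]
    exact mul_ne_zero (by linarith) h1
  · intro g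
    rw [map_sum]
    simp only [ev_single, one_mul]
    rw [e.sum_comp (fun q => p (g * rep q) * ψ (g * rep q))]
    by_cases hg : g ∈ C'
    · obtain ⟨c, hc, hcg⟩ := hC' g hg
      have h2 : ∀ q, ψ (g * rep q) = φ c := fun q =>
        hψ _ c hc (by rw [← mul_assoc]; exact N.mul_mem hcg (hrepN q))
      have h3 : ∀ q, p (g * rep q) =
          (if q = (QuotientGroup.mk ((⟨g, hg⟩ : C')⁻¹) : C' ⧸ D) then (d : ℚ) else 0) - 1 := by
        intro q
        have h4 : g * rep q ∈ C' := C'.mul_mem hg (rep q).2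
        have h5 : (⟨g * rep q, h4⟩ : C') ∈ D ↔
            q = (QuotientGroup.mk ((⟨g, hg⟩ : C')⁻¹) : C' ⧸ D) := by
          rw [eq_comm]
          conv_rhs => rw [← hrepq q]
          rw [QuotientGroup.eq, inv_inv]
          rfl
        simp only [p, dif_pos h4, h5]
      simp only [h2, h3]
      rw [← Finset.sum_mul, Finset.sum_sub_distrib]
      simp [d]
    · apply Finset.sum_eq_zero
      intro q _
      have h4 : g * rep q ∉ C' := fun h => hg ((C'.mul_mem_cancel_right (rep q).2).1 h)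
      simp only [p, dif_neg h4, zero_mul]
  · intro x hx hk g
    by_cases hg : g ∈ C'
    · obtain ⟨c, hc, hcg⟩ := hC' g hg
      have h2 : ev (fun h => p (g * h) * ψ (g * h)) x = ev (fun h => p g * φ (c * h)) x := by
        apply ev_congr
        intro h hh
        have hC := hx h hh
        have h3 : ψ (g * h) = φ (c * h) := by
          apply hψ _ _ (C.mul_mem hc hC)
          have := (inferInstance : N.Normal).conj_mem _ hcg h⁻¹
          have e : h⁻¹ * (c⁻¹ * g) * h⁻¹⁻¹ = (c * h)⁻¹ * (g * h) := by group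
          rwa [e] at this
        have h4 : g * h ∈ C' := C'.mul_mem hg (hCC hC)
        have h5 : (⟨g * h, h4⟩ : C') ∈ D ↔ (⟨g, hg⟩ : C') ∈ D := by
          have h6 : (⟨h, hCC hC⟩ : C') ∈ D := hD (by simpa [Subgroup.mem_subgroupOf] using hC)
          exact D.mul_mem_cancel_right (x := ⟨h, hCC hC⟩) (y := ⟨g, hg⟩) h6
        have h6 : p (g * h) = p g := by simp only [p, dif_pos h4, dif_pos hg, h5]
        rw [h3, h6]
      rw [h2, ev_mul_left, hk c, mul_zero]
    · have h2 : ev (fun h => p (g * h) * ψ (g * h)) x = ev (fun h => 0 * φ (g * h)) x := by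
        apply ev_congr
        intro h hh
        have h4 : g * h ∉ C' := fun h' => hg ((C'.mul_mem_cancel_right (hCC (hx h hh))).1 h')
        simp only [p, dif_neg h4, zero_mul]
      rw [h2, ev_mul_left, zero_mul]

theorem step (hlin : SLin) (heng : SEng) {G : Type} [Group G] (hfg : Group.FG G) (hw : HW G)
    (B : Subgroup G) (hB : ¬ B.FG) (T : Set (MonoidAlgebra ℚ G)) (hT : Good B T)
    (n : ℕ) (ρ : G →* Matrix (Fin n) (Fin n) Qb) :
    ∃ T', T ⊆ T' ∧ Good B T' ∧ ∀ v : Fin n → Qb, (∀ x ∈ T', act ℚ ρ x *ᵥ v = 0) → v = 0 := by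
  classical
  obtain ⟨S, hSfin, hSB, hS⟩ := exists_fin_mod hfg ρ.ker (hlin G hfg hw n ρ) B
  let S1 : Set G := S ∪ ⋃ x ∈ T, (x.coeff.support : Set G)
  have hS1 : S1.Finite := hSfin.union (hT.1.biUnion fun x _ => Finset.finite_toSet _)
  let C := Subgroup.closure S1
  have hCB : C ≤ B := by
    rw [Subgroup.closure_le]
    rintro g (hg | hg)
    · exact hSB hg
    · simp only [Set.mem_iUnion] at hg
      obtain ⟨x, hx, hg⟩ := hg
      exact hT.2.1 x hx g hg
  have hsupp : ∀ x ∈ T, ∀ g ∈ x.coeff.support, g ∈ C := fun x hx g hg =>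
    Subgroup.subset_closure (Or.inr (Set.mem_biUnion hx hg))
  have hBC : ∀ b ∈ B, ∃ c ∈ C, c⁻¹ * b ∈ ρ.ker := fun b hb => by
    obtain ⟨c, hc, hcb⟩ := hS b hb
    exact ⟨c, Subgroup.closure_mono Set.subset_union_left hc, hcb⟩
  by_cases h1 : Ideal.span (T ∪ {x | ∃ m ∈ ρ.ker, m ∈ C ∧
      x = MonoidAlgebra.single m (1 : ℚ) - 1}) = ⊤
  · refine ⟨T, subset_rfl, hT, fun v hv => sol_eq_zero ρ v _ h1 ?_⟩
    rintro x (hx | ⟨m, hm, _, rfl⟩)
    · exact hv x hx
    · rw [map_sub, map_one, MonoidAlgebra.lift_single, MonoidHom.mem_ker.1 hm, one_smul, sub_self,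
        Matrix.zero_mulVec]
  · obtain ⟨φ, hφ1, hφ⟩ := exists_fun _ h1
    have hφN : ∀ g, ∀ m ∈ ρ.ker, m ∈ C → φ (g * m) = φ g := by
      intro g m hm hmC
      have := hφ _ (Or.inr ⟨m, hm, hmC, rfl⟩) g
      rw [map_sub, MonoidAlgebra.one_def, ev_single, ev_single] at this
      simp only [one_mul, mul_one] at this
      linarith
    have hne : ∃ y ∈ B, y ∉ C := by
      by_contra hcon
      push Not at hcon
      apply hB
      have : B = C := le_antisymm hcon hCB
      rw [this]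
      exact (Subgroup.fg_iff _).2 ⟨S1, rfl, hS1⟩
    obtain ⟨y, hyB, hyC⟩ := hne
    let C' := Subgroup.closure (insert y S1)
    have hCC : C ≤ C' := Subgroup.closure_mono (Set.subset_insert _ _)
    have hC'B : C' ≤ B := by
      rw [Subgroup.closure_le]
      rintro g (rfl | hg)
      · exact hyB
      · exact hCB (Subgroup.subset_closure hg)
    have hC'fg : Group.FG C' :=
      (Group.fg_iff_subgroup_fg _).2 ((Subgroup.fg_iff _).2 ⟨_, rfl, hS1.insert y⟩)
    have hne : C.subgroupOf C' ≠ ⊤ := by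
      intro h
      have hy : y ∈ C' := Subgroup.subset_closure (Set.mem_insert _ _)
      have : (⟨y, hy⟩ : C') ∈ C.subgroupOf C' := h ▸ Subgroup.mem_top _
      exact hyC (Subgroup.mem_subgroupOf.1 this)
    obtain ⟨D, hD, hD1, hD2⟩ := heng C' hC'fg (hw_sub hw C') _ hne
    obtain ⟨φ', d, r, h2, hd, hr, hk, hk'⟩ :=
      new_fun ρ.ker C C' hCC (fun g hg => hBC g (hC'B hg)) D hD hD1 φ hφ1 hφN
    refine ⟨insert (∑ i, MonoidAlgebra.single (r i) 1) T, Set.subset_insert _ _,
      ⟨hT.1.insert _, ?_, ?_⟩, ?_⟩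
    · rintro x (rfl | hx) g hg
      · rw [MonoidAlgebra.coeff_sum] at hg
        have := Finsupp.support_finsetSum hg
        simp only [Finset.mem_biUnion, MonoidAlgebra.coeff_single] at this
        obtain ⟨i, _, hi⟩ := this
        have := Finsupp.support_single_subset hi
        rw [Finset.mem_singleton] at this
        rw [this]
        exact hC'B (hr i).2
      · exact hT.2.1 x hx g hg
    · apply span_ne_top φ' h2
      rintro x (rfl | hx)
      · exact hk
      · exact hk' x (hsupp x hx) (hφ x (Or.inl hx))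
    · intro v hv
      have h3 := hv _ (Set.mem_insert _ _)
      rw [map_sum] at h3
      have h4 : ∀ i, act ℚ ρ (MonoidAlgebra.single (r i) 1) = 1 := fun i => by
        rw [MonoidAlgebra.lift_single, MonoidHom.mem_ker.1 (hr i).1, one_smul]
      simp only [h4, Finset.sum_const, Finset.card_univ, Fintype.card_fin] at h3
      rw [Matrix.smul_mulVec, Matrix.one_mulVec] at h3
      funext i
      have h5 := congrFun h3 i
      simp only [Pi.smul_apply, nsmul_eq_mul, Pi.zero_apply, mul_eq_zero, Nat.cast_eq_zero] at h5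
      exact h5.resolve_left hd

theorem countable_reps {G : Type} [Group G] (hfg : Group.FG G) :
    Countable (Σ n : ℕ, (G →* Matrix (Fin n) (Fin n) Qb)) := by
  have hQ : Countable Qb := by
    have h := Algebraic.countable ℚ Qb
    have h2 : {x : Qb | IsAlgebraic ℚ x} = Set.univ :=
      Set.eq_univ_of_forall fun x => (AlgebraicClosure.isAlgebraic ℚ).isAlgebraic x
    rw [h2] at h
    exact Set.countable_univ_iff.1 h
  obtain ⟨S, hS, hfin⟩ := Group.fg_iff.1 hfg
  have := hfin.to_subtype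
  have h : ∀ n : ℕ, Countable (G →* Matrix (Fin n) (Fin n) Qb) := by
    intro n
    have hM : Countable (Matrix (Fin n) (Fin n) Qb) :=
      inferInstanceAs (Countable (Fin n → Fin n → Qb))
    apply Function.Injective.countable
      (f := fun (ρ : G →* Matrix (Fin n) (Fin n) Qb) (s : S) => ρ s)
    intro ρ ρ' h
    exact MonoidHom.eq_of_eqOn_dense hS fun s hs => congrFun h ⟨s, hs⟩
  infer_instance

theorem noeth : SSpec → SLin → SEng → SNoeth := by
  intro hspec hlin heng G _ hfg hw B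
  by_contra hB
  have := countable_reps hfg
  have : Nonempty (Σ n : ℕ, (G →* Matrix (Fin n) (Fin n) Qb)) := ⟨⟨0, 1⟩⟩
  obtain ⟨e, he⟩ := exists_surjective_nat (Σ n : ℕ, (G →* Matrix (Fin n) (Fin n) Qb))
  choose nx hnx1 hnx2 hnx3 using step hlin heng hfg hw B hB
  have h0 : Good B (∅ : Set (MonoidAlgebra ℚ G)) :=
    ⟨Set.finite_empty, fun x hx => hx.elim, by simp⟩
  let T : ℕ → {T : Set (MonoidAlgebra ℚ G) // Good B T} := fun j =>
    Nat.rec ⟨∅, h0⟩ (fun j t => ⟨nx t.1 t.2 (e j).1 (e j).2, hnx2 _ _ _ _⟩) j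
  have hmono : Monotone fun j => (T j).1 :=
    monotone_nat_of_le_succ fun j => hnx1 (T j).1 (T j).2 (e j).1 (e j).2
  have hsol : Sol G (⋃ j, (T j).1) := by
    apply hw_w1 hw
    intro F hF
    obtain ⟨j, hj⟩ : ∃ j, (↑F : Set (MonoidAlgebra ℚ G)) ⊆ (T j).1 := by
      have := (hmono.directed_le).exists_mem_subset_of_finset_subset_biUnion hF
      exact this
    intro htop
    exact (T j).2.2.2 (top_le_iff.1 (htop ▸ Ideal.span_mono hj))
  obtain ⟨n, ρ, v, hv, hx⟩ := hspec G hfg _ hsol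
  obtain ⟨j, hj⟩ := he ⟨n, ρ⟩
  have h3 : ∀ (p : Σ n : ℕ, (G →* Matrix (Fin n) (Fin n) Qb)), e j = p → ∀ v : Fin p.1 → Qb,
      (∀ x ∈ (T (j + 1)).1, act ℚ p.2 x *ᵥ v = 0) → v = 0 := by
    rintro p rfl
    exact hnx3 (T j).1 (T j).2 (e j).1 (e j).2
  exact hv (h3 _ hj v fun x hxT => hx x (Set.mem_iUnion.2 ⟨j + 1, hxT⟩))

end Pool.Agent.MP_6a4325_al.H7
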